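import Pool.Agent.Work.MP_2df4ce_k.Final
import Pool.Agent.Work.MP_2df4ce_k.B_RMC
import Pool.Agent.Work.MP_2df4ce_k.B_BIR
import Pool.Agent.Work.MP_2df4ce_k.B_CLE
import Pool.Agent.Work.MP_2df4ce_k.B_CHN
import Pool.Agent.Work.MP_2df4ce_k.B_HTY
import Pool.Agent.Work.MP_2df4ce_k.B_UNI
import Pool.Agent.Work.MP_2df4ce_k.B_EXC
import Pool.Agent.Work.MP_2df4ce_k.B_MO2
import Pool.Agent.Work.MP_2df4ce_k.B_UNB
import Pool.Agent.Work.MP_2df4ce_k.B_FTN

/-!
# MP_2df4ce_lc: polynomial kernels for `F`-free edge editing

For every finite family `F` of graphs such that the `F`-free graphs are bounded in the sense of `Bounded`,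
`F`-free edge editing has a polynomial kernel. `Bounded F` is characterised by unavoidable induced
subgraphs; it holds for every family containing `K_p` minus an edge and the complement of `K_q` minus an
edge. For `p, q ≥ 5` the two single problems are incompressible (see the problem file), so this pair
answers Q1 negatively for editing.
`PolyTime` (Pool/Agent/Work/TMLib/Classes.lean) is Mathlib's `TM2ComputableInPolyTime` with finite
stack alphabets.
-/

set_option autoImplicit false

namespace Pool.Agent.Results.MP_2df4ce_lc.EditingKernels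

open Pool.Agent.Work.TMLib

/-- Graphs with vertex set `{0, ..., m - 1}`. -/
abbrev Gr := Σ m : ℕ, SimpleGraph (Fin m)

/-- No induced subgraph of `G` is isomorphic to a member of `F`. -/
def Free (F : Set Gr) {V : Type} (G : SimpleGraph V) : Prop := ∀ H ∈ F, IsEmpty (H.2 ↪g G)

/-- An instance of edge editing: the number `n` of vertices, a list of edges, the parameter `k`. -/
abbrev Inst := ℕ × List (ℕ × ℕ) × ℕ

/-- The graph of an instance; its vertices are `0, ..., n - 1`. -/
def Inst.graph (I : Inst) : SimpleGraph (Fin I.1) :=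
  SimpleGraph.fromRel fun i j => ((i : ℕ), (j : ℕ)) ∈ I.2.1

/-- The graph can be made `F`-free by adding and removing at most `k` edges in total. -/
def Yes (F : Set Gr) (I : Inst) : Prop :=
  ∃ G' : SimpleGraph (Fin I.1), Free F G' ∧ (symmDiff I.graph.edgeSet G'.edgeSet).ncard ≤ I.2.2

/-- A natural number as a string of bits: `x` zeros followed by a one. -/
def encNum (x : ℕ) : List Bool := List.replicate x false ++ [true]

/-- An instance as a string of bits: `n`, `k`, the ends of the edges one after the other. -/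
def Inst.enc (I : Inst) : List Bool :=
  encNum I.1 ++ encNum I.2.2 ++ I.2.1.flatMap fun e => encNum e.1 ++ encNum e.2

/-- `F`-free edge editing has a polynomial kernel: a polynomial-time algorithm (Turing machine) which
maps every instance to an equivalent one, of length bounded by a polynomial in the parameter, and
whose parameter is not larger. -/
def HasKernel (F : Set Gr) : Prop :=
  ∃ (f : Inst → Inst) (P : Polynomial ℕ), PolyTime Inst.enc Inst.enc f ∧
    ∀ I : Inst, (Yes F (f I) ↔ Yes F I) ∧ (f I).2.2 ≤ I.2.2 ∧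
      (f I).enc.length ≤ P.eval I.2.2

/-- There is `t` such that no finite `F`-free graph contains `t` vertices, any two of which are
distinguished by at least `t` other vertices (adjacent to exactly one of the two). -/
def Bounded (F : Set Gr) : Prop :=
  ∃ t : ℕ, ∀ (n : ℕ) (G : SimpleGraph (Fin n)), Free F G →
    ¬ ∃ x : Fin t → Fin n, ∀ i j, i ≠ j →
      t ≤ {v | v ≠ x i ∧ v ≠ x j ∧ (G.Adj (x i) v ↔ ¬ G.Adj (x j) v)}.ncard

/-- The graph on the vertices `inl i` (`i < m`) and `inr x` (`x : B`): the vertices `inl i` are pairwise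
adjacent iff `a`, the vertices `inr x` are pairwise adjacent iff `b`, and `inl i`, `inr x` are adjacent iff
`R i x`. -/
def bip (m : ℕ) {B : Type} (a b : Bool) (R : Fin m → B → Prop) : SimpleGraph (Fin m ⊕ B) where
  Adj
    | .inl i, .inl j => i ≠ j ∧ a = true
    | .inr x, .inr y => x ≠ y ∧ b = true
    | .inl i, .inr x => R i x
    | .inr x, .inl i => R i x
  symm := ⟨by
    rintro (i | x) (j | y) h
    · exact ⟨h.1.symm, h.2⟩
    · exact h
    · exact h
    · exact ⟨h.1.symm, h.2⟩⟩
  loopless := ⟨by
    rintro (i | x) h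
    · exact h.1 rfl
    · exact h.1 rfl⟩

/-- The half graph: `inl i` and `inr j` are adjacent iff `i ≤ j`. -/
def half (a b : Bool) (m : ℕ) : SimpleGraph (Fin m ⊕ Fin m) := bip m a b fun i j => i ≤ j

/-- `inl i` is adjacent exactly to the `m` vertices `inr (i, y)` of the other side (`c = true`), or exactly
to the other ones (`c = false`). -/
def mtch (a b c : Bool) (m : ℕ) : SimpleGraph (Fin m ⊕ Fin m × Fin m) :=
  bip m a b fun i x => (i = x.1 ↔ c = true)

/-- The disjoint union of `m` complete graphs with `m` vertices. -/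
def cliques (m : ℕ) : SimpleGraph (Fin m × Fin m) :=
  SimpleGraph.fromRel fun x y => x.1 = y.1

/-- Each of the 14 families (`half a b`, `mtch a b c`, disjoint unions of complete graphs and their
complements) has a member which contains a member of `F` as an induced subgraph. -/
def Unavoidable (F : Set Gr) : Prop :=
  (∀ a b, ∃ H ∈ F, ∃ m, Nonempty (H.2 ↪g half a b m)) ∧
    (∀ a b c, ∃ H ∈ F, ∃ m, Nonempty (H.2 ↪g mtch a b c m)) ∧
    (∃ H ∈ F, ∃ m, Nonempty (H.2 ↪g cliques m)) ∧ (∃ H ∈ F, ∃ m, Nonempty (H.2 ↪g (cliques m)ᶜ))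

/-- The complete graph on `p` vertices minus the edge `0 1`. -/
def KMinus (p : ℕ) : SimpleGraph (Fin p) :=
  SimpleGraph.fromRel fun i _ => 2 ≤ i.val

theorem bip_eq : @bip = @Pool.Ker.St.bip := by
  funext m B a b R
  ext x y
  rcases x with i | x <;> rcases y with j | y <;> rfl

theorem unavoidable_iff (F : Set Gr) : Unavoidable F ↔ Pool.Ker.St.Unavoidable F := by
  unfold Unavoidable Pool.Ker.St.Unavoidable half mtch Pool.Ker.St.half Pool.Ker.St.mtch
  rw [bip_eq]
  exact Iff.rfl

theorem bounded_iff (F : Set Gr) : Bounded F ↔ Unavoidable F := by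
  have hCLE : Pool.Ker.Stmt_CLE := Pool.Ker.stmt_CLE Pool.Ker.stmt_RAM Pool.Ker.stmt_BIR
  have hEXC : Pool.Ker.Stmt_EXC := Pool.Ker.stmt_EXC Pool.Ker.p_RMC hCLE Pool.Ker.stmt_CHN
    Pool.Ker.stmt_HTY Pool.Ker.stmt_UNI
  have h := Pool.Ker.stmt_FTN hEXC Pool.Ker.stmt_MO2 Pool.Ker.stmt_UNB F
  exact h.trans (unavoidable_iff F).symm

theorem hasKernel_of (F : Set Gr) (h : Pool.Ker.St.HasKernel F) : HasKernel F := h

/-- Let `F` be a finite family of graphs. `Bounded F` holds iff each of the 14 families has a member
containing a member of `F` as an induced subgraph, and then `F`-free edge editing has a polynomial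
kernel. In particular this is so if `F` contains `K_p` minus an edge and the complement of `K_q` minus an
edge. -/
theorem result (F : Set Gr) (hF : F.Finite) :
    (Bounded F ↔ Unavoidable F) ∧ (Bounded F → HasKernel F) ∧
      ∀ p q : ℕ, (⟨p, KMinus p⟩ : Gr) ∈ F → (⟨q, (KMinus q)ᶜ⟩ : Gr) ∈ F →
        Bounded F ∧ HasKernel F := by
  have hK : Bounded F → HasKernel F :=
    fun hB => hasKernel_of F (Pool.Ker.bounded_kernel F hF hB)
  refine ⟨bounded_iff F, hK, fun p q hp hq => ?_⟩
  have hB : Bounded F := Pool.Ker.four_bounded F (Pool.Ker.pair_four p q F hp hq)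
  exact ⟨hB, hK hB⟩

end Pool.Agent.Results.MP_2df4ce_lc.EditingKernels
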