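import Pool.Agent.Work.MP_2df4ce_n.Final

/-!
# MP_2df4ce_lc: polynomial kernels for `F`-free edge editing, graphs close to cluster graphs

Let `F` be a finite family of graphs which contains `K_{p+2}` minus an edge and `P_3 + bK_1` (a path with
three vertices and `b` isolated vertices). Then `F`-free edge editing has a polynomial kernel. For
`p, b ≥ 3` each of the two graphs alone is incompressible for edge editing (see the problem file), so these
pairs answer Q1 negatively for editing. All disjoint unions of complete graphs are free of both graphs, so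
such families are not bounded in the sense of `EditingKernels`.
`PolyTime` (Pool/Agent/Work/TMLib/Classes.lean) is Mathlib's `TM2ComputableInPolyTime` with finite
stack alphabets.
-/

set_option autoImplicit false

namespace Pool.Agent.Results.MP_2df4ce_lc.NearClusterKernels

open Pool.Agent.Work.TMLib

/-- Graphs with vertex set `{0, ..., m - 1}`. -/
abbrev Gr := Σ m : ℕ, SimpleGraph (Fin m)

/-- No induced subgraph of `G` is isomorphic to a member of `F`. -/
def Free (F : Set Gr) {V : Type} (G : SimpleGraph V) : Prop := ∀ H ∈ F, IsEmpty (H.2 ↪g G)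

/-- An instance of edge editing: the number `n` of vertices, a list of edges, the parameter `k`. -/
abbrev Inst := ℕ × List (ℕ × ℕ) × ℕ

/-- The graph of an instance; its vertices are `0, ..., n - 1`. -/
def Inst.graph (I : Inst) : SimpleGraph (Fin I.1) :=
  SimpleGraph.fromRel fun i j => ((i : ℕ), (j : ℕ)) ∈ I.2.1

/-- The graph can be made `F`-free by adding and removing at most `k` edges in total. -/
def Yes (F : Set Gr) (I : Inst) : Prop :=
  ∃ G' : SimpleGraph (Fin I.1), Free F G' ∧ (symmDiff I.graph.edgeSet G'.edgeSet).ncard ≤ I.2.2

/-- A natural number as a string of bits: `x` zeros followed by a one. -/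
def encNum (x : ℕ) : List Bool := List.replicate x false ++ [true]

/-- An instance as a string of bits: `n`, `k`, the ends of the edges one after the other. -/
def Inst.enc (I : Inst) : List Bool :=
  encNum I.1 ++ encNum I.2.2 ++ I.2.1.flatMap fun e => encNum e.1 ++ encNum e.2

/-- `F`-free edge editing has a polynomial kernel: a polynomial-time algorithm (Turing machine) which
maps every instance to an equivalent one, of length bounded by a polynomial in the parameter, and
whose parameter is not larger. -/
def HasKernel (F : Set Gr) : Prop :=
  ∃ (f : Inst → Inst) (P : Polynomial ℕ), PolyTime Inst.enc Inst.enc f ∧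
    ∀ I : Inst, (Yes F (f I) ↔ Yes F I) ∧ (f I).2.2 ≤ I.2.2 ∧
      (f I).enc.length ≤ P.eval I.2.2

/-- The complete graph on `p` vertices minus the edge `0 1`. -/
def KMinus (p : ℕ) : SimpleGraph (Fin p) :=
  SimpleGraph.fromRel fun i _ => 2 ≤ i.val

/-- `P_3 + bK_1`: the path `0 - 1 - 2` and `b` isolated vertices. -/
def PathPlus (b : ℕ) : SimpleGraph (Fin (b + 3)) :=
  SimpleGraph.fromRel fun i j => (i.val = 0 ∧ j.val = 1) ∨ (i.val = 1 ∧ j.val = 2)

theorem hasKernel_of (F : Set Gr) (h : Pool.Ker.St.HasKernel F) : HasKernel F := h

/-- Let `F` be a finite family of graphs which contains `K_{p+2}` minus an edge and `P_3 + bK_1`. Then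
`F`-free edge editing has a polynomial kernel. -/
theorem result (F : Set Gr) (hF : F.Finite) (p b : ℕ)
    (hp : (⟨p + 2, KMinus (p + 2)⟩ : Gr) ∈ F) (hb : (⟨b + 3, PathPlus b⟩ : Gr) ∈ F) :
    HasKernel F :=
  hasKernel_of F (Pool.Ker.N.near_cluster_kernel F p b hF hp hb)

end Pool.Agent.Results.MP_2df4ce_lc.NearClusterKernels
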